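import Mathlib

/-!
# Domination polynomials of paths and cycles: a transfer recurrence

`DomPC.domPoly G x` is the domination polynomial `∑_{i=1}^{|V|} d(G,i) x^i`.
We show that for `n = m+3` the polynomials of the path and the cycle are
`h(n) + 2 h(n-1) + h(n-2)` and `h(n) + 2 h(n-1) + 3 h(n-2)` where `h` satisfies
`h(0)=0, h(1)=x, h(2)=x^2, h(k+3) = x (h(k+2)+h(k+1)+h(k))`.
-/

namespace DomPC

open Finset

variable {V : Type*}

/-- `S` is a dominating set of `G`: every vertex outside `S` has a neighbour in `S`. -/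
def IsDom (G : SimpleGraph V) (S : Finset V) : Prop :=
  ∀ v, v ∉ S → ∃ w ∈ S, G.Adj v w

open Classical in
/-- `d(G,i)`: the number of dominating sets of `G` with exactly `i` elements. -/
noncomputable def numDom [Fintype V] (G : SimpleGraph V) (i : ℕ) : ℕ :=
  (Finset.univ.filter (fun S : Finset V => IsDom G S ∧ S.card = i)).card

/-- The domination polynomial `D(G,x) = ∑_{i=1}^{|V|} d(G,i) x^i`, as a real function of `x`. -/
noncomputable def domPoly [Fintype V] (G : SimpleGraph V) (x : ℝ) : ℝ :=
  ∑ i ∈ Finset.Icc 1 (Fintype.card V), (numDom G i : ℝ) * x ^ i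

open Classical in
theorem domPoly_eq [Fintype V] [Nonempty V] (G : SimpleGraph V) (x : ℝ) :
    domPoly G x = ∑ S ∈ Finset.univ.filter (fun S : Finset V => IsDom G S), x ^ S.card := by
  have h1 : ∀ S ∈ Finset.univ.filter (fun S : Finset V => IsDom G S),
      S.card ∈ Finset.Icc 1 (Fintype.card V) := by
    intro S hS
    rw [Finset.mem_filter] at hS
    rw [Finset.mem_Icc]
    refine ⟨?_, Finset.card_le_univ S⟩
    rw [Nat.one_le_iff_ne_zero, Ne, Finset.card_eq_zero]
    rintro rfl
    obtain ⟨v⟩ := ‹Nonempty V›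
    obtain ⟨w, hw, -⟩ := hS.2 v (Finset.notMem_empty v)
    exact Finset.notMem_empty w hw
  rw [← Finset.sum_fiberwise_of_maps_to h1]
  unfold domPoly
  refine Finset.sum_congr rfl fun i _ => ?_
  rw [Finset.sum_congr rfl (g := fun _ => x ^ i) (by
    intro S hS
    rw [Finset.mem_filter] at hS
    rw [hS.2])]
  rw [Finset.sum_const, nsmul_eq_mul, Finset.filter_filter]
  rfl

/-! ### The families of words -/

/-- subsets of `[p, p+k]` containing both end points and having no three consecutive
missing elements. -/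
def Good (p k : ℕ) (S : Finset ℕ) : Prop :=
  p ∈ S ∧ p + k ∈ S ∧ ∀ i, p ≤ i → i < p + k → (i ∈ S ∨ i + 1 ∈ S ∨ i + 2 ∈ S)

open Classical in
/-- the finite family of `Good` sets -/
noncomputable def GG (p k : ℕ) : Finset (Finset ℕ) :=
  (Finset.Ico p (p + k + 1)).powerset.filter (Good p k)

theorem mem_GG {p k : ℕ} {S : Finset ℕ} :
    S ∈ GG p k ↔ (∀ i ∈ S, p ≤ i ∧ i ≤ p + k) ∧ Good p k S := by
  classical
  unfold GG
  rw [Finset.mem_filter, Finset.mem_powerset]
  constructor
  · rintro ⟨h, hg⟩
    refine ⟨fun i hi => ?_, hg⟩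
    have := Finset.mem_Ico.1 (h hi)
    omega
  · rintro ⟨h, hg⟩
    refine ⟨fun i hi => ?_, hg⟩
    have := h i hi
    rw [Finset.mem_Ico]
    omega

theorem GG_inj {p k p' k' : ℕ} {S : Finset ℕ} (h : S ∈ GG p k) (h' : S ∈ GG p' k') :
    p = p' ∧ k = k' := by
  rw [mem_GG] at h h'
  obtain ⟨h1, h2, h3, -⟩ := h
  obtain ⟨h1', h2', h3', -⟩ := h'
  have a1 := h1 _ h2'
  have a2 := h1 _ h3'
  have a3 := h1' _ h2
  have a4 := h1' _ h3
  omega

/-- the weight of a family -/
noncomputable def W (x : ℝ) (F : Finset (Finset ℕ)) : ℝ := ∑ S ∈ F, x ^ S.card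

theorem GG_zero (p : ℕ) : GG p 0 = {{p}} := by
  ext S
  rw [mem_GG, Finset.mem_singleton]
  constructor
  · rintro ⟨h1, h2, -⟩
    ext i
    rw [Finset.mem_singleton]
    constructor
    · intro hi
      have := h1 i hi
      omega
    · rintro rfl
      exact h2
  · rintro rfl
    refine ⟨fun i hi => ?_, ?_, ?_, ?_⟩
    · rw [Finset.mem_singleton] at hi
      omega
    · simp
    · simp
    · intro i h1 h2
      omega

theorem GG_one (p : ℕ) : GG p 1 = {{p, p + 1}} := by
  ext S
  rw [mem_GG, Finset.mem_singleton]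
  constructor
  · rintro ⟨h1, h2, h3, -⟩
    ext i
    simp only [Finset.mem_insert, Finset.mem_singleton]
    constructor
    · intro hi
      have := h1 i hi
      omega
    · rintro (rfl | rfl)
      · exact h2
      · exact h3
  · rintro rfl
    refine ⟨fun i hi => ?_, ?_, ?_, ?_⟩
    · simp only [Finset.mem_insert, Finset.mem_singleton] at hi
      omega
    · simp
    · simp
    · intro i h1 h2
      left
      simp
      omega

theorem insert_mem_GG {p k j : ℕ} (hj : j < k) (hk : k ≤ j + 3) {T : Finset ℕ}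
    (hT : T ∈ GG p j) : insert (p + k) T ∈ GG p k := by
  rw [mem_GG] at hT ⊢
  obtain ⟨h1, h2, h3, h4⟩ := hT
  refine ⟨?_, ?_, ?_, ?_⟩
  · intro i hi
    rw [Finset.mem_insert] at hi
    rcases hi with rfl | hi
    · omega
    · have := h1 i hi
      omega
  · exact Finset.mem_insert_of_mem h2
  · exact Finset.mem_insert_self _ _
  · intro i hi1 hi2
    simp only [Finset.mem_insert]
    rcases lt_or_ge i (p + j) with hlt | hge
    · rcases h4 i hi1 hlt with h | h | h
      · exact Or.inl (Or.inr h)
      · exact Or.inr (Or.inl (Or.inr h))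
      · exact Or.inr (Or.inr (Or.inr h))
    · rcases Nat.eq_or_lt_of_le hge with he | hgt
      · left; right
        rw [← he]
        exact h3
      · have : i + 1 = p + k ∨ i + 2 = p + k := by omega
        rcases this with h | h
        · exact Or.inr (Or.inl (Or.inl h))
        · exact Or.inr (Or.inr (Or.inl h))

theorem notMem_of_mem_GG {p k j : ℕ} (hj : j < k) {T : Finset ℕ}
    (hT : T ∈ GG p j) : p + k ∉ T := by
  rw [mem_GG] at hT
  intro h
  have := hT.1 _ h
  omega

theorem exists_of_mem_GG {p k : ℕ} {S : Finset ℕ} (hk : 1 ≤ k)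
    (hS : S ∈ GG p k) :
    ∃ j, j < k ∧ k ≤ j + 3 ∧ S.erase (p + k) ∈ GG p j := by
  rw [mem_GG] at hS
  obtain ⟨h1, h2, h3, h4⟩ := hS
  -- the largest element of the rest
  have key : ∀ j, j < k → k ≤ j + 3 → p + j ∈ S → (∀ i, j < i → i < k → p + i ∉ S) →
      S.erase (p + k) ∈ GG p j := by
    intro j hj1 hj2 hj3 hj4
    rw [mem_GG]
    refine ⟨?_, ?_, ?_, ?_⟩
    · intro i hi
      rw [Finset.mem_erase] at hi
      have := h1 i hi.2
      refine ⟨this.1, ?_⟩
      by_contra hcon
      have h5 : p + (i - p) = i := by omega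
      apply hj4 (i - p) (by omega) (by omega)
      rw [h5]
      exact hi.2
    · rw [Finset.mem_erase]
      exact ⟨by omega, h2⟩
    · rw [Finset.mem_erase]
      exact ⟨by omega, hj3⟩
    · intro i hi1 hi2
      simp only [Finset.mem_erase]
      by_cases hc : i + 2 = p + k
      · -- i + 1 ∈ S or i ∈ S
        have : i + 1 = p + j := by omega
        right; left
        exact ⟨by omega, by rw [this]; exact hj3⟩
      · rcases h4 i hi1 (by omega) with h | h | h
        · exact Or.inl ⟨by omega, h⟩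
        · exact Or.inr (Or.inl ⟨by omega, h⟩)
        · exact Or.inr (Or.inr ⟨by omega, h⟩)
  by_cases c1 : p + (k - 1) ∈ S
  · exact ⟨k - 1, by omega, by omega, key (k - 1) (by omega) (by omega) c1
      (fun i h h' => by omega)⟩
  have hk2 : 2 ≤ k := by
    by_contra hcon
    have : k = 1 := by omega
    subst this
    exact c1 h2
  by_cases c2 : p + (k - 2) ∈ S
  · refine ⟨k - 2, by omega, by omega, key (k - 2) (by omega) (by omega) c2
      (fun i h h' => ?_)⟩
    have : i = k - 1 := by omega
    rw [this]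
    exact c1
  have hk3 : 3 ≤ k := by
    by_contra hcon
    have : k = 2 := by omega
    subst this
    exact c2 h2
  have c3 : p + (k - 3) ∈ S := by
    rcases h4 (p + (k - 3)) (by omega) (by omega) with h | h | h
    · exact h
    · exact absurd (by rwa [show p + (k - 3) + 1 = p + (k - 2) by omega] at h) c2
    · exact absurd (by rwa [show p + (k - 3) + 2 = p + (k - 1) by omega] at h) c1
  refine ⟨k - 3, by omega, by omega, key (k - 3) (by omega) (by omega) c3
      (fun i h h' => ?_)⟩
  have : i = k - 1 ∨ i = k - 2 := by omega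
  rcases this with rfl | rfl
  · exact c1
  · exact c2

/-- the general one-step decomposition -/
theorem W_step (x : ℝ) (p k : ℕ) (hk : 1 ≤ k) :
    W x (GG p k) = x * ∑ j ∈ (Finset.range k).filter (fun j => k ≤ j + 3), W x (GG p j) := by
  classical
  have hU : GG p k = (((Finset.range k).filter (fun j => k ≤ j + 3)).biUnion (GG p)).image
      (insert (p + k)) := by
    ext S
    rw [Finset.mem_image]
    constructor
    · intro hS
      obtain ⟨j, h1, h2, h3⟩ := exists_of_mem_GG hk hS
      refine ⟨S.erase (p + k), ?_, ?_⟩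
      · rw [Finset.mem_biUnion]
        exact ⟨j, by simp [h1, h2], h3⟩
      · rw [Finset.insert_erase]
        exact (mem_GG.1 hS).2.2.1
    · rintro ⟨T, hT, rfl⟩
      rw [Finset.mem_biUnion] at hT
      obtain ⟨j, hj, hT⟩ := hT
      rw [Finset.mem_filter, Finset.mem_range] at hj
      exact insert_mem_GG hj.1 hj.2 hT
  have hnot : ∀ T ∈ ((Finset.range k).filter (fun j => k ≤ j + 3)).biUnion (GG p),
      p + k ∉ T := by
    intro T hT
    rw [Finset.mem_biUnion] at hT
    obtain ⟨j, hj, hT⟩ := hT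
    rw [Finset.mem_filter, Finset.mem_range] at hj
    exact notMem_of_mem_GG hj.1 hT
  unfold W
  rw [hU, Finset.sum_image]
  · rw [Finset.sum_congr rfl (g := fun T => x * x ^ T.card)]
    · rw [← Finset.mul_sum, Finset.sum_biUnion]
      intro a _ b _ hab
      rw [Function.onFun, Finset.disjoint_left]
      intro S h1 h2
      exact hab (GG_inj h1 h2).2
    · intro T hT
      rw [Finset.card_insert_of_notMem (hnot T hT), pow_succ, mul_comm]
  · intro S hS T hT hST
    have h1 := hnot S hS
    have h2 := hnot T hT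
    rw [← Finset.erase_insert h1, ← Finset.erase_insert h2, hST]

/-- The auxiliary sequence: `h 0 = 0`, `h 1 = x`, `h 2 = x^2`,
`h (n+3) = x * (h (n+2) + h (n+1) + h n)`. -/
noncomputable def h (x : ℝ) : ℕ → ℝ
  | 0 => 0
  | 1 => x
  | 2 => x ^ 2
  | (n + 3) => x * (h x (n + 2) + h x (n + 1) + h x n)

theorem h_rec (x : ℝ) (n : ℕ) : h x (n + 3) = x * (h x (n + 2) + h x (n + 1) + h x n) := by
  rw [h]

theorem W_GG (x : ℝ) (p : ℕ) : ∀ k, W x (GG p k) = h x (k + 1) := by
  intro k
  induction k using Nat.strong_induction_on with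
  | _ k ih =>
    rcases Nat.lt_or_ge k 3 with hk | hk
    · interval_cases k
      · rw [GG_zero]; simp [W, h]
      · rw [GG_one]; simp [W, h]
      · rw [W_step x p 2 (by norm_num)]
        have : (Finset.range 2).filter (fun j => 2 ≤ j + 3) = {0, 1} := by decide
        rw [this, Finset.sum_pair (by norm_num), ih 0 (by norm_num), ih 1 (by norm_num)]
        have e1 : h x (2 + 1) = x * (h x 2 + h x 1 + h x 0) := h_rec x 0
        have a0 : h x 0 = 0 := by simp [h]
        have a1 : h x 1 = x := by simp [h]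
        have a2 : h x 2 = x ^ 2 := by simp [h]
        rw [e1, show (0 + 1 : ℕ) = 1 from rfl, show (1 + 1 : ℕ) = 2 from rfl, a0, a1, a2]
        ring
    · obtain ⟨m, rfl⟩ : ∃ m, k = m + 3 := ⟨k - 3, by omega⟩
      rw [W_step x p (m + 3) (by omega)]
      have : (Finset.range (m + 3)).filter (fun j => m + 3 ≤ j + 3) = {m, m + 1, m + 2} := by
        ext j
        simp only [Finset.mem_filter, Finset.mem_range, Finset.mem_insert, Finset.mem_singleton]
        omega
      rw [this, Finset.sum_insert (by simp), Finset.sum_pair (by omega), ih m (by omega),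
        ih (m + 1) (by omega), ih (m + 2) (by omega)]
      have e1 : h x (m + 3 + 1) = x * (h x (m + 2 + 1) + h x (m + 1 + 1) + h x (m + 1)) :=
        h_rec x (m + 1)
      rw [e1]
      ring

/-! ### Transfer to `ℕ` -/

/-- transfer of a sum over `Finset (Fin n)` to the subsets of `range n` -/
theorem sum_transfer {n : ℕ} (x : ℝ) (P : Finset (Fin n) → Prop) [DecidablePred P]
    (Q : Finset ℕ → Prop) [DecidablePred Q]
    (hPQ : ∀ T : Finset (Fin n), P T ↔ Q (T.map Fin.valEmbedding)) :
    ∑ T ∈ Finset.univ.filter P, x ^ T.card =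
      ∑ S ∈ (Finset.range n).powerset.filter Q, x ^ S.card := by
  refine Finset.sum_bij' (fun T _ => T.map Fin.valEmbedding)
    (fun S _ => Finset.univ.filter (fun v : Fin n => (v : ℕ) ∈ S)) ?_ ?_ ?_ ?_ ?_
  · intro T hT
    rw [Finset.mem_filter] at hT
    rw [Finset.mem_filter, Finset.mem_powerset]
    refine ⟨?_, (hPQ T).1 hT.2⟩
    intro i hi
    rw [Finset.mem_map] at hi
    obtain ⟨v, -, rfl⟩ := hi
    exact Finset.mem_range.2 v.2
  · intro S hS
    rw [Finset.mem_filter, Finset.mem_powerset] at hS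
    rw [Finset.mem_filter]
    refine ⟨Finset.mem_univ _, ?_⟩
    rw [hPQ]
    convert hS.2 using 1
    ext i
    simp only [Finset.mem_map, Finset.mem_filter, Finset.mem_univ, true_and,
      Fin.valEmbedding_apply]
    constructor
    · rintro ⟨v, hv, rfl⟩
      exact hv
    · intro hi
      exact ⟨⟨i, Finset.mem_range.1 (hS.1 hi)⟩, hi, rfl⟩
  · intro T hT
    ext v
    simp only [Finset.mem_map, Finset.mem_filter, Finset.mem_univ, true_and,
      Fin.valEmbedding_apply]
    constructor
    · rintro ⟨w, hw, hwv⟩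
      rwa [← Fin.ext hwv]
    · intro hv
      exact ⟨v, hv, rfl⟩
  · intro S hS
    rw [Finset.mem_filter, Finset.mem_powerset] at hS
    ext i
    simp only [Finset.mem_map, Finset.mem_filter, Finset.mem_univ, true_and,
      Fin.valEmbedding_apply]
    constructor
    · rintro ⟨v, hv, rfl⟩
      exact hv
    · intro hi
      exact ⟨⟨i, Finset.mem_range.1 (hS.1 hi)⟩, hi, rfl⟩
  · intro T hT
    rw [Finset.card_map]

theorem mem_map_val {n : ℕ} (T : Finset (Fin n)) (v : Fin n) :
    (v : ℕ) ∈ T.map Fin.valEmbedding ↔ v ∈ T := by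
  rw [Finset.mem_map]
  constructor
  · rintro ⟨w, hw, hwv⟩
    rwa [← Fin.ext hwv]
  · intro hv
    exact ⟨v, hv, rfl⟩

theorem lt_of_mem_map_val {n : ℕ} {T : Finset (Fin n)} {i : ℕ}
    (hi : i ∈ T.map Fin.valEmbedding) : i < n := by
  rw [Finset.mem_map] at hi
  obtain ⟨v, -, rfl⟩ := hi
  exact v.2

/-! ### Paths -/

theorem isDom_path {n : ℕ} (T : Finset (Fin n)) :
    IsDom (SimpleGraph.pathGraph n) T ↔
      ∀ i < n, (i ∈ T.map Fin.valEmbedding ∨ i + 1 ∈ T.map Fin.valEmbedding ∨
        (1 ≤ i ∧ i - 1 ∈ T.map Fin.valEmbedding)) := by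
  constructor
  · intro hD i hi
    by_cases hm : (⟨i, hi⟩ : Fin n) ∈ T
    · left
      exact (mem_map_val T ⟨i, hi⟩).2 hm
    · obtain ⟨w, hw, hadj⟩ := hD _ hm
      rw [SimpleGraph.pathGraph_adj] at hadj
      have hw' := (mem_map_val T w).2 hw
      rcases hadj with h | h
      · right; left
        simp only at h
        rw [h]; exact hw'
      · right; right
        simp only at h
        refine ⟨by omega, ?_⟩
        rw [← h]
        simpa using hw'
  · intro hD v hv
    rcases hD v v.2 with h | h | ⟨h1, h⟩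
    · exact absurd ((mem_map_val T v).1 h) hv
    · have hlt := lt_of_mem_map_val h
      refine ⟨⟨v + 1, hlt⟩, (mem_map_val T ⟨v + 1, hlt⟩).1 h, ?_⟩
      rw [SimpleGraph.pathGraph_adj]
      left; rfl
    · have hlt := lt_of_mem_map_val h
      refine ⟨⟨v - 1, hlt⟩, (mem_map_val T ⟨v - 1, hlt⟩).1 h, ?_⟩
      rw [SimpleGraph.pathGraph_adj]
      right
      simp only
      omega

theorem path_family (m : ℕ) (S : Finset ℕ) :
    (S ⊆ Finset.range (m + 3) ∧
      ∀ i < m + 3, (i ∈ S ∨ i + 1 ∈ S ∨ (1 ≤ i ∧ i - 1 ∈ S))) ↔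
    (S ∈ GG 0 (m + 2) ∨ S ∈ GG 0 (m + 1) ∨ S ∈ GG 1 (m + 1) ∨ S ∈ GG 1 m) := by
  constructor
  · rintro ⟨hsub, hD⟩
    have hb : ∀ i ∈ S, i < m + 3 := fun i hi => Finset.mem_range.1 (hsub hi)
    -- first element
    have hfirst : ∃ p, p ≤ 1 ∧ p ∈ S ∧ ∀ i ∈ S, p ≤ i := by
      by_cases h0 : 0 ∈ S
      · exact ⟨0, by omega, h0, fun i _ => Nat.zero_le i⟩
      · have := hD 0 (by omega)
        refine ⟨1, le_refl _, ?_, ?_⟩
        · rcases this with h | h | h
          · exact absurd h h0
          · exact h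
          · omega
        · intro i hi
          by_contra hcon
          have : i = 0 := by omega
          rw [this] at hi
          exact h0 hi
    have hlast : ∃ q, m + 1 ≤ q ∧ q ≤ m + 2 ∧ q ∈ S ∧ ∀ i ∈ S, i ≤ q := by
      by_cases h0 : m + 2 ∈ S
      · exact ⟨m + 2, by omega, by omega, h0, fun i hi => by have := hb i hi; omega⟩
      · have := hD (m + 2) (by omega)
        refine ⟨m + 1, by omega, by omega, ?_, ?_⟩
        · rcases this with h | h | h
          · exact absurd h h0
          · exact absurd (hb _ h) (by omega)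
          · exact h.2
        · intro i hi
          have := hb i hi
          by_contra hcon
          have : i = m + 2 := by omega
          rw [this] at hi
          exact h0 hi
    obtain ⟨p, hp1, hpS, hpmin⟩ := hfirst
    obtain ⟨q, hq1, hq2, hqS, hqmax⟩ := hlast
    have hpq : p ≤ q := by omega
    have hmem : S ∈ GG p (q - p) := by
      rw [mem_GG]
      refine ⟨fun i hi => ⟨hpmin i hi, ?_⟩, hpS, ?_, ?_⟩
      · have := hqmax i hi
        omega
      · rw [show p + (q - p) = q by omega]; exact hqS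
      · intro i hi1 hi2
        rw [show p + (q - p) = q by omega] at hi2
        rcases hD (i + 1) (by omega) with h | h | ⟨-, h⟩
        · exact Or.inr (Or.inl h)
        · exact Or.inr (Or.inr h)
        · exact Or.inl h
    have : (p = 0 ∧ q - p = m + 2) ∨ (p = 0 ∧ q - p = m + 1) ∨ (p = 1 ∧ q - p = m + 1) ∨
        (p = 1 ∧ q - p = m) := by omega
    rcases this with ⟨h1, h2⟩ | ⟨h1, h2⟩ | ⟨h1, h2⟩ | ⟨h1, h2⟩ <;> rw [h2, h1] at hmem
    · exact Or.inl hmem
    · exact Or.inr (Or.inl hmem)
    · exact Or.inr (Or.inr (Or.inl hmem))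
    · exact Or.inr (Or.inr (Or.inr hmem))
  · intro hS
    have : ∃ p k, p ≤ 1 ∧ m + 1 ≤ p + k ∧ p + k ≤ m + 2 ∧ S ∈ GG p k := by
      rcases hS with h | h | h | h
      · exact ⟨_, _, by omega, by omega, by omega, h⟩
      · exact ⟨_, _, by omega, by omega, by omega, h⟩
      · exact ⟨_, _, by omega, by omega, by omega, h⟩
      · exact ⟨_, _, by omega, by omega, by omega, h⟩
    obtain ⟨p, k, hp, hk1, hk2, hS⟩ := this
    rw [mem_GG] at hS
    obtain ⟨h1, h2, h3, h4⟩ := hS
    refine ⟨fun i hi => ?_, fun i hi => ?_⟩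
    · rw [Finset.mem_range]
      have := h1 i hi
      omega
    · rcases Nat.eq_zero_or_pos i with rfl | hpos
      · -- p = 0 or p = 1
        have : p = 0 ∨ p = 1 := by omega
        rcases this with rfl | rfl
        · exact Or.inl h2
        · exact Or.inr (Or.inl h2)
      · rcases lt_or_ge (i - 1) p with hlt | hge
        · have : p = i := by omega
          rw [this] at h2
          exact Or.inl h2
        · rcases lt_or_ge (i - 1) (p + k) with hlt' | hge'
          · rcases h4 (i - 1) hge hlt' with h | h | h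
            · exact Or.inr (Or.inr ⟨hpos, h⟩)
            · rw [show i - 1 + 1 = i by omega] at h
              exact Or.inl h
            · rw [show i - 1 + 2 = i + 1 by omega] at h
              exact Or.inr (Or.inl h)
          · right; right
            refine ⟨hpos, ?_⟩
            rw [show i - 1 = p + k by omega]
            exact h3

theorem domPoly_path (m : ℕ) (x : ℝ) :
    domPoly (SimpleGraph.pathGraph (m + 3)) x =
      h x (m + 3) + 2 * h x (m + 2) + h x (m + 1) := by
  classical
  rw [domPoly_eq, sum_transfer x _ (fun S => ∀ i < m + 3, (i ∈ S ∨ i + 1 ∈ S ∨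
        (1 ≤ i ∧ i - 1 ∈ S))) (fun T => isDom_path T)]
  have hU : (Finset.range (m + 3)).powerset.filter (fun S => ∀ i < m + 3, (i ∈ S ∨ i + 1 ∈ S ∨
        (1 ≤ i ∧ i - 1 ∈ S))) =
      ({(0, m + 2), (0, m + 1), (1, m + 1), (1, m)} : Finset (ℕ × ℕ)).biUnion
        (fun pk => GG pk.1 pk.2) := by
    ext S
    rw [Finset.mem_filter, Finset.mem_powerset, path_family]
    simp
  rw [hU, Finset.sum_biUnion]
  · rw [Finset.sum_insert (by simp), Finset.sum_insert (by simp), Finset.sum_insert (by simp),
      Finset.sum_singleton]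
    have := W_GG x 0 (m + 2)
    have := W_GG x 0 (m + 1)
    have := W_GG x 1 (m + 1)
    have := W_GG x 1 m
    unfold W at *
    simp only at *
    linarith
  · intro a _ b _ hab
    rw [Function.onFun, Finset.disjoint_left]
    intro S h1 h2
    have := GG_inj h1 h2
    exact hab (Prod.ext this.1 this.2)

/-! ### Cycles -/

theorem cycle_adj {n : ℕ} (u v : Fin n) :
    (SimpleGraph.cycleGraph n).Adj u v ↔
      (u.val + 1 = v.val ∨ v.val + 1 = u.val ∨ (n ≥ 2 ∧ u.val = 0 ∧ v.val + 1 = n) ∨
        (n ≥ 2 ∧ v.val = 0 ∧ u.val + 1 = n)) := by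
  rw [SimpleGraph.cycleGraph_adj']
  have hu := u.2
  have hv := v.2
  rcases lt_trichotomy u v with hlt | heq | hgt
  · have h1 : (u - v).val = n + u.val - v.val := Fin.coe_sub_iff_lt.2 hlt
    have h2 : (v - u).val = v.val - u.val := Fin.coe_sub_iff_le.2 hlt.le
    rw [h1, h2]
    have : u.val < v.val := hlt
    omega
  · subst heq
    have h1 : (u - u).val = u.val - u.val := Fin.coe_sub_iff_le.2 le_rfl
    rw [h1]
    omega
  · have h1 : (v - u).val = n + v.val - u.val := Fin.coe_sub_iff_lt.2 hgt
    have h2 : (u - v).val = u.val - v.val := Fin.coe_sub_iff_le.2 hgt.le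
    rw [h1, h2]
    have : v.val < u.val := hgt
    omega

theorem isDom_cycle {m : ℕ} (T : Finset (Fin (m + 3))) :
    IsDom (SimpleGraph.cycleGraph (m + 3)) T ↔
      ∀ i < m + 3, (i ∈ T.map Fin.valEmbedding ∨ i + 1 ∈ T.map Fin.valEmbedding ∨
        (1 ≤ i ∧ i - 1 ∈ T.map Fin.valEmbedding) ∨
        (i = 0 ∧ m + 2 ∈ T.map Fin.valEmbedding) ∨
        (i = m + 2 ∧ 0 ∈ T.map Fin.valEmbedding)) := by
  constructor
  · intro hD i hi
    by_cases hm : (⟨i, hi⟩ : Fin (m + 3)) ∈ T
    · left
      exact (mem_map_val T ⟨i, hi⟩).2 hm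
    · obtain ⟨w, hw, hadj⟩ := hD _ hm
      rw [cycle_adj] at hadj
      have hw' := (mem_map_val T w).2 hw
      simp only at hadj
      rcases hadj with h | h | ⟨-, h, h'⟩ | ⟨-, h, h'⟩
      · right; left
        rw [h]; exact hw'
      · right; right; left
        refine ⟨by omega, ?_⟩
        rw [← h]
        simpa using hw'
      · right; right; right; left
        refine ⟨h, ?_⟩
        rw [show m + 2 = w.val by omega]
        exact hw'
      · right; right; right; right
        refine ⟨by omega, ?_⟩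
        rw [← h]
        exact hw'
  · intro hD v hv
    rcases hD v v.2 with h | h | ⟨h1, h⟩ | ⟨h1, h⟩ | ⟨h1, h⟩
    · exact absurd ((mem_map_val T v).1 h) hv
    · have hlt := lt_of_mem_map_val h
      refine ⟨⟨v + 1, hlt⟩, (mem_map_val T ⟨v + 1, hlt⟩).1 h, ?_⟩
      rw [cycle_adj]
      left; rfl
    · have hlt := lt_of_mem_map_val h
      refine ⟨⟨v - 1, hlt⟩, (mem_map_val T ⟨v - 1, hlt⟩).1 h, ?_⟩
      rw [cycle_adj]
      right; left
      simp only
      omega
    · have hlt := lt_of_mem_map_val h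
      refine ⟨⟨m + 2, hlt⟩, (mem_map_val T ⟨m + 2, hlt⟩).1 h, ?_⟩
      rw [cycle_adj]
      right; right; left
      exact ⟨by omega, h1, rfl⟩
    · have hlt := lt_of_mem_map_val h
      refine ⟨⟨0, hlt⟩, (mem_map_val T ⟨0, hlt⟩).1 h, ?_⟩
      rw [cycle_adj]
      right; right; right
      exact ⟨by omega, rfl, by omega⟩

theorem cycle_family (m : ℕ) (S : Finset ℕ) :
    (S ⊆ Finset.range (m + 3) ∧
      ∀ i < m + 3, (i ∈ S ∨ i + 1 ∈ S ∨ (1 ≤ i ∧ i - 1 ∈ S) ∨ (i = 0 ∧ m + 2 ∈ S) ∨
        (i = m + 2 ∧ 0 ∈ S))) ↔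
    (S ∈ GG 0 (m + 2) ∨ S ∈ GG 0 (m + 1) ∨ S ∈ GG 0 m ∨ S ∈ GG 1 (m + 1) ∨ S ∈ GG 1 m ∨
      S ∈ GG 2 m) := by
  constructor
  · rintro ⟨hsub, hD⟩
    have hb : ∀ i ∈ S, i < m + 3 := fun i hi => Finset.mem_range.1 (hsub hi)
    -- the pair (p, q) of extreme elements
    have hpq : ∃ p q, p ∈ S ∧ q ∈ S ∧ (∀ i ∈ S, p ≤ i) ∧ (∀ i ∈ S, i ≤ q) ∧
        ((p = 0 ∧ q = m + 2) ∨ (p = 0 ∧ q = m + 1) ∨ (p = 0 ∧ q = m) ∨
          (p = 1 ∧ q = m + 2) ∨ (p = 1 ∧ q = m + 1) ∨ (p = 2 ∧ q = m + 2)) := by
      by_cases h0 : 0 ∈ S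
      · have hmin : ∀ i ∈ S, 0 ≤ i := fun i _ => Nat.zero_le i
        by_cases g0 : m + 2 ∈ S
        · exact ⟨0, m + 2, h0, g0, hmin, fun i hi => by have := hb i hi; omega, by omega⟩
        · by_cases g1 : m + 1 ∈ S
          · refine ⟨0, m + 1, h0, g1, hmin, fun i hi => ?_, by omega⟩
            have := hb i hi
            by_contra hcon
            have : i = m + 2 := by omega
            rw [this] at hi
            exact g0 hi
          · have g2 : m ∈ S := by
              rcases hD (m + 1) (by omega) with h | h | ⟨-, h⟩ | ⟨h, -⟩ | ⟨h, -⟩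
              · exact absurd h g1
              · exact absurd h g0
              · simpa using h
              · omega
              · omega
            refine ⟨0, m, h0, g2, hmin, fun i hi => ?_, by omega⟩
            have := hb i hi
            by_contra hcon
            have : i = m + 2 ∨ i = m + 1 := by omega
            rcases this with h | h
            · rw [h] at hi
              exact g0 hi
            · rw [h] at hi
              exact g1 hi
      · have hne0 : ∀ i ∈ S, 1 ≤ i := by
          intro i hi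
          by_contra hcon
          have : i = 0 := by omega
          rw [this] at hi
          exact h0 hi
        by_cases g0 : m + 2 ∈ S
        · have hmax : ∀ i ∈ S, i ≤ m + 2 := fun i hi => by have := hb i hi; omega
          by_cases h1 : 1 ∈ S
          · exact ⟨1, m + 2, h1, g0, hne0, hmax, by omega⟩
          · have h2 : 2 ∈ S := by
              rcases hD 1 (by omega) with h | h | ⟨-, h⟩ | ⟨h, -⟩ | ⟨h, h'⟩
              · exact absurd h h1
              · exact h
              · exact absurd h h0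
              · omega
              · exact absurd h' h0
            refine ⟨2, m + 2, h2, g0, fun i hi => ?_, hmax, by omega⟩
            have := hne0 i hi
            by_contra hcon
            have : i = 1 := by omega
            rw [this] at hi
            exact h1 hi
        · have h1 : 1 ∈ S := by
            rcases hD 0 (by omega) with h | h | ⟨h, -⟩ | ⟨-, h⟩ | ⟨h, h'⟩
            · exact absurd h h0
            · exact h
            · omega
            · exact absurd h g0
            · omega
          have g1 : m + 1 ∈ S := by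
            rcases hD (m + 2) (by omega) with h | h | ⟨-, h⟩ | ⟨h, -⟩ | ⟨-, h⟩
            · exact absurd h g0
            · exact absurd (hb _ h) (by omega)
            · exact h
            · omega
            · exact absurd h h0
          refine ⟨1, m + 1, h1, g1, hne0, fun i hi => ?_, by omega⟩
          have := hb i hi
          by_contra hcon
          have : i = m + 2 := by omega
          rw [this] at hi
          exact g0 hi
    obtain ⟨p, q, hpS, hqS, hpmin, hqmax, hcases⟩ := hpq
    have hpq' : p ≤ q := hpmin q hqS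
    have hmem : S ∈ GG p (q - p) := by
      rw [mem_GG]
      refine ⟨fun i hi => ⟨hpmin i hi, ?_⟩, hpS, ?_, ?_⟩
      · have := hqmax i hi
        omega
      · rw [show p + (q - p) = q by omega]; exact hqS
      · intro i hi1 hi2
        rw [show p + (q - p) = q by omega] at hi2
        rcases hD (i + 1) (by omega) with h | h | ⟨-, h⟩ | ⟨h, -⟩ | ⟨h, -⟩
        · exact Or.inr (Or.inl h)
        · exact Or.inr (Or.inr h)
        · exact Or.inl h
        · omega
        · right; left
          rw [show i + 1 = q by omega]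
          exact hqS
    have : (p = 0 ∧ q - p = m + 2) ∨ (p = 0 ∧ q - p = m + 1) ∨ (p = 0 ∧ q - p = m) ∨
        (p = 1 ∧ q - p = m + 1) ∨ (p = 1 ∧ q - p = m) ∨ (p = 2 ∧ q - p = m) := by omega
    rcases this with ⟨h1, h2⟩ | ⟨h1, h2⟩ | ⟨h1, h2⟩ | ⟨h1, h2⟩ | ⟨h1, h2⟩ | ⟨h1, h2⟩ <;>
      rw [h2, h1] at hmem
    · exact Or.inl hmem
    · exact Or.inr (Or.inl hmem)
    · exact Or.inr (Or.inr (Or.inl hmem))
    · exact Or.inr (Or.inr (Or.inr (Or.inl hmem)))
    · exact Or.inr (Or.inr (Or.inr (Or.inr (Or.inl hmem))))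
    · exact Or.inr (Or.inr (Or.inr (Or.inr (Or.inr hmem))))
  · intro hS
    have : ∃ p k, ((p = 0 ∧ p + k = m + 2) ∨ (p = 0 ∧ p + k = m + 1) ∨ (p = 0 ∧ p + k = m) ∨
          (p = 1 ∧ p + k = m + 2) ∨ (p = 1 ∧ p + k = m + 1) ∨ (p = 2 ∧ p + k = m + 2)) ∧
          S ∈ GG p k := by
      rcases hS with h | h | h | h | h | h
      · exact ⟨_, _, by omega, h⟩
      · exact ⟨_, _, by omega, h⟩
      · exact ⟨_, _, by omega, h⟩
      · exact ⟨_, _, by omega, h⟩
      · exact ⟨_, _, by omega, h⟩
      · exact ⟨_, _, by omega, h⟩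
    obtain ⟨p, k, hcases, hS⟩ := this
    rw [mem_GG] at hS
    obtain ⟨h1, h2, h3, h4⟩ := hS
    refine ⟨fun i hi => ?_, fun i hi => ?_⟩
    · rw [Finset.mem_range]
      have := h1 i hi
      omega
    · have e0 : ∀ j, j = p → j ∈ S := fun j hj => hj ▸ h2
      have e1 : ∀ j, j = p + k → j ∈ S := fun j hj => hj ▸ h3
      rcases Nat.eq_zero_or_pos i with rfl | hpos
      · by_cases c0 : p = 0
        · exact Or.inl (e0 0 c0.symm)
        · by_cases c1 : p = 1
          · exact Or.inr (Or.inl (e0 _ (by omega)))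
          · exact Or.inr (Or.inr (Or.inr (Or.inl ⟨rfl, e1 _ (by omega)⟩)))
      · rcases lt_or_ge (i - 1) p with hlt | hge
        · -- i ≤ p ≤ 2, 1 ≤ i
          by_cases c0 : i = p
          · exact Or.inl (e0 _ c0)
          · exact Or.inr (Or.inl (e0 _ (by omega)))
        · rcases lt_or_ge (i - 1) (p + k) with hlt' | hge'
          · rcases h4 (i - 1) hge hlt' with h | h | h
            · exact Or.inr (Or.inr (Or.inl ⟨hpos, h⟩))
            · rw [show i - 1 + 1 = i by omega] at h
              exact Or.inl h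
            · rw [show i - 1 + 2 = i + 1 by omega] at h
              exact Or.inr (Or.inl h)
          · by_cases c0 : i - 1 = p + k
            · exact Or.inr (Or.inr (Or.inl ⟨hpos, e1 _ c0⟩))
            · -- i = m+2, p+k = m, p = 0
              exact Or.inr (Or.inr (Or.inr (Or.inr ⟨by omega, e0 _ (by omega)⟩)))

theorem domPoly_cycle (m : ℕ) (x : ℝ) :
    domPoly (SimpleGraph.cycleGraph (m + 3)) x =
      h x (m + 3) + 2 * h x (m + 2) + 3 * h x (m + 1) := by
  classical
  rw [domPoly_eq, sum_transfer x _ (fun S => ∀ i < m + 3, (i ∈ S ∨ i + 1 ∈ S ∨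
        (1 ≤ i ∧ i - 1 ∈ S) ∨ (i = 0 ∧ m + 2 ∈ S) ∨ (i = m + 2 ∧ 0 ∈ S)))
        (fun T => isDom_cycle T)]
  have hU : (Finset.range (m + 3)).powerset.filter (fun S => ∀ i < m + 3, (i ∈ S ∨ i + 1 ∈ S ∨
        (1 ≤ i ∧ i - 1 ∈ S) ∨ (i = 0 ∧ m + 2 ∈ S) ∨ (i = m + 2 ∧ 0 ∈ S))) =
      ({(0, m + 2), (0, m + 1), (0, m), (1, m + 1), (1, m), (2, m)} : Finset (ℕ × ℕ)).biUnion
        (fun pk => GG pk.1 pk.2) := by
    ext S
    rw [Finset.mem_filter, Finset.mem_powerset, cycle_family]
    simp
  rw [hU, Finset.sum_biUnion]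
  · rw [Finset.sum_insert (by simp), Finset.sum_insert (by simp), Finset.sum_insert (by simp),
      Finset.sum_insert (by simp), Finset.sum_insert (by simp), Finset.sum_singleton]
    have := W_GG x 0 (m + 2)
    have := W_GG x 0 (m + 1)
    have := W_GG x 0 m
    have := W_GG x 1 (m + 1)
    have := W_GG x 1 m
    have := W_GG x 2 m
    unfold W at *
    simp only at *
    linarith
  · intro a _ b _ hab
    rw [Function.onFun, Finset.disjoint_left]
    intro S h1 h2
    have := GG_inj h1 h2
    exact hab (Prod.ext this.1 this.2)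

end DomPC
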