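import Pool.Agent.Q262.PC.Core

/-!
# A root-free interval for the domination polynomials of paths and cycles
-/

namespace DomPC

open Filter Topology

/-- the point around which there is a common root-free interval -/
noncomputable def x0 : ℝ := -31 / 16

theorem hv0 : h x0 0 = 0 := by simp [h]
theorem hv1 : h x0 1 = -31 / 16 := by simp [h, x0]
theorem hv2 : h x0 2 = 961 / 256 := by simp [h, x0]; norm_num
theorem hv3 : h x0 3 = (-14415 / 4096 : ℝ) := by
  rw [show (3 : ℕ) = 0 + 3 from rfl, h_rec, show (0 + 2 : ℕ) = 2 from rfl, show (0 + 1 : ℕ) = 1 from rfl,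
    hv2, hv1, hv0]
  norm_num [x0]
theorem hv4 : h x0 4 = (216225 / 65536 : ℝ) := by
  rw [show (4 : ℕ) = 1 + 3 from rfl, h_rec, show (1 + 2 : ℕ) = 3 from rfl, show (1 + 1 : ℕ) = 2 from rfl,
    hv3, hv2, hv1]
  norm_num [x0]
theorem hv5 : h x0 5 = (-7179631 / 1048576 : ℝ) := by
  rw [show (5 : ℕ) = 2 + 3 from rfl, h_rec, show (2 + 2 : ℕ) = 4 from rfl, show (2 + 1 : ℕ) = 3 from rfl,
    hv4, hv3, hv2]
  norm_num [x0]
theorem hv6 : h x0 6 = (229718401 / 16777216 : ℝ) := by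
  rw [show (6 : ℕ) = 3 + 3 from rfl, h_rec, show (3 + 2 : ℕ) = 5 from rfl, show (3 + 1 : ℕ) = 4 from rfl,
    hv5, hv4, hv3]
  norm_num [x0]
theorem hv7 : h x0 7 = (-5276135055 / 268435456 : ℝ) := by
  rw [show (7 : ℕ) = 4 + 3 from rfl, h_rec, show (4 + 2 : ℕ) = 6 from rfl, show (4 + 1 : ℕ) = 5 from rfl,
    hv6, hv5, hv4]
  norm_num [x0]
theorem hv8 : h x0 8 = (106597411425 / 4294967296 : ℝ) := by
  rw [show (8 : ℕ) = 5 + 3 from rfl, h_rec, show (5 + 2 : ℕ) = 7 from rfl, show (5 + 1 : ℕ) = 6 from rfl,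
    hv7, hv6, hv5]
  norm_num [x0]
theorem hv9 : h x0 9 = (-2510601997231 / 68719476736 : ℝ) := by
  rw [show (9 : ℕ) = 6 + 3 from rfl, h_rec, show (6 + 2 : ℕ) = 8 from rfl, show (6 + 1 : ℕ) = 7 from rfl,
    hv8, hv7, hv6]
  norm_num [x0]
theorem hv10 : h x0 10 = (66827753643841 / 1099511627776 : ℝ) := by
  rw [show (10 : ℕ) = 7 + 3 from rfl, h_rec, show (7 + 2 : ℕ) = 9 from rfl, show (7 + 1 : ℕ) = 8 from rfl,
    hv9, hv8, hv7]
  norm_num [x0]
theorem hv11 : h x0 11 = (-1672358829401295 / 17592186044416 : ℝ) := by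
  rw [show (11 : ℕ) = 8 + 3 from rfl, h_rec, show (8 + 2 : ℕ) = 10 from rfl, show (8 + 1 : ℕ) = 9 from rfl,
    hv10, hv9, hv8]
  norm_num [x0]
theorem hv12 : h x0 12 = (38620695354120225 / 281474976710656 : ℝ) := by
  rw [show (12 : ℕ) = 9 + 3 from rfl, h_rec, show (9 + 2 : ℕ) = 11 from rfl, show (9 + 1 : ℕ) = 10 from rfl,
    hv11, hv10, hv9]
  norm_num [x0]
theorem hv13 : h x0 13 = (-898096629512206831 / 4503599627370496 : ℝ) := by
  rw [show (13 : ℕ) = 10 + 3 from rfl, h_rec, show (10 + 2 : ℕ) = 12 from rfl, show (10 + 1 : ℕ) = 11 from rfl,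
    hv12, hv11, hv10]
  norm_num [x0]
theorem hv14 : h x0 14 = (21956970289363457281 / 72057594037927936 : ℝ) := by
  rw [show (14 : ℕ) = 11 + 3 from rfl, h_rec, show (11 + 2 : ℕ) = 13 from rfl, show (11 + 1 : ℕ) = 12 from rfl,
    hv13, hv12, hv11]
  norm_num [x0]
theorem hv15 : h x0 15 = (-541703989062510693135 / 1152921504606846976 : ℝ) := by
  rw [show (15 : ℕ) = 12 + 3 from rfl, h_rec, show (12 + 2 : ℕ) = 14 from rfl, show (12 + 1 : ℕ) = 13 from rfl,
    hv14, hv13, hv12]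
  norm_num [x0]
theorem hv16 : h x0 16 = (13029461249222430086625 / 18446744073709551616 : ℝ) := by
  rw [show (16 : ℕ) = 13 + 3 from rfl, h_rec, show (13 + 2 : ℕ) = 15 from rfl, show (13 + 1 : ℕ) = 14 from rfl,
    hv15, hv14, hv13]
  norm_num [x0]
theorem hv17 : h x0 17 = (-309478636367278425872431 / 295147905179352825856 : ℝ) := by
  rw [show (17 : ℕ) = 14 + 3 from rfl, h_rec, show (14 + 2 : ℕ) = 16 from rfl, show (14 + 1 : ℕ) = 15 from rfl,
    hv16, hv15, hv14]
  norm_num [x0]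


/-- the path sequence `D(P_{m+3}, x)` -/
noncomputable def dP (x : ℝ) (m : ℕ) : ℝ := h x (m + 3) + 2 * h x (m + 2) + h x (m + 1)

/-- the cycle sequence `D(C_{m+3}, x)` -/
noncomputable def dC (x : ℝ) (m : ℕ) : ℝ := h x (m + 3) + 2 * h x (m + 2) + 3 * h x (m + 1)

theorem dP_rec (x : ℝ) (m : ℕ) : dP x (m + 3) = x * (dP x (m + 2) + dP x (m + 1) + dP x m) := by
  unfold dP
  rw [h_rec x (m + 3), show m + 3 + 2 = (m + 2) + 3 by ring, h_rec x (m + 2),
    show m + 3 + 1 = (m + 1) + 3 by ring, h_rec x (m + 1)]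
  ring_nf

theorem dC_rec (x : ℝ) (m : ℕ) : dC x (m + 3) = x * (dC x (m + 2) + dC x (m + 1) + dC x m) := by
  unfold dC
  rw [h_rec x (m + 3), show m + 3 + 2 = (m + 2) + 3 by ring, h_rec x (m + 2),
    show m + 3 + 1 = (m + 1) + 3 by ring, h_rec x (m + 1)]
  ring_nf

theorem continuous_h : ∀ n : ℕ, Continuous (fun x => h x n) := by
  intro n
  induction n using Nat.strong_induction_on with
  | _ n ih =>
    match n, ih with
    | 0, _ => simp only [h]; exact continuous_const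
    | 1, _ => simp only [h]; exact continuous_id
    | 2, _ => simp only [h]; exact continuous_pow 2
    | (k + 3), ih =>
      simp only [h_rec]
      exact continuous_id.mul (((ih (k + 2) (by omega)).add (ih (k + 1) (by omega))).add
        (ih k (by omega)))

theorem continuous_dP (m : ℕ) : Continuous (fun x => dP x m) :=
  ((continuous_h _).add (continuous_const.mul (continuous_h _))).add (continuous_h _)

theorem continuous_dC (m : ℕ) : Continuous (fun x => dC x m) :=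
  ((continuous_h _).add (continuous_const.mul (continuous_h _))).add
    (continuous_const.mul (continuous_h _))

/-- the invariant of the ratio argument -/
def Inv (a b c : ℝ) : Prop :=
  0 < a ∧ 23 / 20 * a < b ∧ b < 187 / 100 * a ∧ 23 / 20 * b < c ∧ c < 187 / 100 * b

theorem inv_step {y a b c : ℝ} (hy1 : 1.9314 ≤ y) (hy2 : y ≤ 2) (hI : Inv a b c) :
    Inv b c (y * (c - b + a)) := by
  obtain ⟨h1, h2, h3, h4, h5⟩ := hI
  have hs : 0 < c - b + a := by linarith
  have l1 : 1.9314 * (c - b + a) ≤ y * (c - b + a) := mul_le_mul_of_nonneg_right hy1 hs.le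
  have l2 : y * (c - b + a) ≤ 2 * (c - b + a) := mul_le_mul_of_nonneg_right hy2 hs.le
  refine ⟨by linarith, h4, h5, ?_, ?_⟩
  · linarith
  · linarith

theorem eventually_nonzero {x : ℝ} (hx1 : -2 ≤ x) (hx2 : x ≤ -1.9314) (d : ℕ → ℝ)
    (hd : ∀ m, d (m + 3) = x * (d (m + 2) + d (m + 1) + d m)) (N : ℕ)
    (hN : Inv (d N) (- d (N + 1)) (d (N + 2))) : ∀ m, N ≤ m → d m ≠ 0 := by
  have key : ∀ k, Inv ((-1) ^ k * d (N + k)) ((-1) ^ (k + 1) * d (N + k + 1))
      ((-1) ^ (k + 2) * d (N + k + 2)) := by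
    intro k
    induction k with
    | zero => simpa using hN
    | succ k ih =>
      have := inv_step (y := -x) (by linarith) (by linarith) ih
      have e : (-x) * ((-1) ^ (k + 2) * d (N + k + 2) - (-1) ^ (k + 1) * d (N + k + 1) +
          (-1) ^ k * d (N + k)) = (-1) ^ (k + 1 + 2) * d (N + (k + 1) + 2) := by
        rw [show N + (k + 1) + 2 = (N + k) + 3 by ring, hd (N + k)]
        rw [pow_succ, pow_succ, pow_succ, pow_succ]
        ring
      rw [e] at this
      exact this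
  intro m hm
  obtain ⟨k, rfl⟩ := Nat.exists_eq_add_of_le hm
  have := (key k).1
  intro h0
  rw [h0] at this
  simp at this

theorem dP_base : Inv (dP x0 11) (- dP x0 12) (dP x0 13) := by
  unfold Inv dP
  refine ⟨?_, ?_, ?_, ?_, ?_⟩ <;> norm_num [hv12, hv13, hv14, hv15, hv16]

theorem dC_base : Inv (dC x0 11) (- dC x0 12) (dC x0 13) := by
  unfold Inv dC
  refine ⟨?_, ?_, ?_, ?_, ?_⟩ <;> norm_num [hv12, hv13, hv14, hv15, hv16]

theorem dP_ne : ∀ m ∈ Finset.Icc 1 10, dP x0 m ≠ 0 := by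
  intro m hm
  rw [Finset.mem_Icc] at hm
  obtain ⟨h1, h2⟩ := hm
  unfold dP
  interval_cases m <;>
  norm_num only [hv1, hv2, hv3, hv4, hv5, hv6, hv7, hv8, hv9, hv10, hv11, hv12, hv13]

theorem dC_ne : ∀ m ∈ Finset.Icc 1 10, dC x0 m ≠ 0 := by
  intro m hm
  rw [Finset.mem_Icc] at hm
  obtain ⟨h1, h2⟩ := hm
  unfold dC
  interval_cases m <;>
  norm_num only [hv1, hv2, hv3, hv4, hv5, hv6, hv7, hv8, hv9, hv10, hv11, hv12, hv13]

theorem eventually_inv (d : ℝ → ℕ → ℝ) (hc : ∀ m, Continuous (fun x => d x m))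
    (hb : Inv (d x0 11) (- d x0 12) (d x0 13)) :
    ∀ᶠ x in 𝓝 x0, Inv (d x 11) (- d x 12) (d x 13) := by
  obtain ⟨h1, h2, h3, h4, h5⟩ := hb
  have c1 := (hc 11).continuousAt (x := x0)
  have c2 := ((hc 12).neg).continuousAt (x := x0)
  have c3 := (hc 13).continuousAt (x := x0)
  have e1 := ContinuousAt.eventually_lt continuousAt_const c1 h1
  have e2 := ContinuousAt.eventually_lt (continuousAt_const.mul c1) c2 h2
  have e3 := ContinuousAt.eventually_lt c2 (continuousAt_const.mul c1) h3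
  have e4 := ContinuousAt.eventually_lt (continuousAt_const.mul c2) c3 h4
  have e5 := ContinuousAt.eventually_lt c3 (continuousAt_const.mul c2) h5
  filter_upwards [e1, e2, e3, e4, e5] with x k1 k2 k3 k4 k5
  exact ⟨k1, k2, k3, k4, k5⟩

theorem all_nonzero (d : ℝ → ℕ → ℝ) (hc : ∀ m, Continuous (fun x => d x m))
    (hd : ∀ x m, d x (m + 3) = x * (d x (m + 2) + d x (m + 1) + d x m))
    (hb : Inv (d x0 11) (- d x0 12) (d x0 13)) (hne : ∀ m ∈ Finset.Icc 1 10, d x0 m ≠ 0) :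
    ∀ᶠ x in 𝓝 x0, ∀ m, 1 ≤ m → d x m ≠ 0 := by
  have e1 : ∀ᶠ x in 𝓝 x0, ∀ m ∈ Finset.Icc 1 10, d x m ≠ 0 := by
    rw [Filter.eventually_all_finset]
    intro m hm
    exact (hc m).continuousAt.eventually_ne (hne m hm)
  have e2 := eventually_inv d hc hb
  have e3 : ∀ᶠ x in 𝓝 x0, (-2 : ℝ) < x :=
    ContinuousAt.eventually_lt continuousAt_const continuousAt_id (by norm_num [x0])
  have e4 : ∀ᶠ x in 𝓝 x0, x < -1.9314 :=
    ContinuousAt.eventually_lt continuousAt_id continuousAt_const (by norm_num [x0])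
  filter_upwards [e1, e2, e3, e4] with x k1 k2 k3 k4
  intro m hm
  rcases Nat.lt_or_ge m 11 with hlt | hge
  · exact k1 m (Finset.mem_Icc.2 ⟨hm, by omega⟩)
  · exact eventually_nonzero k3.le k4.le (d x) (hd x) 11 k2 m hge

theorem main_interval : ∃ a b : ℝ, -2 < a ∧ a < b ∧ b < 0 ∧ ∀ x ∈ Set.Icc a b,
    ∀ m, 1 ≤ m → dP x m ≠ 0 ∧ dC x m ≠ 0 := by
  have e1 := all_nonzero dP continuous_dP dP_rec dP_base dP_ne
  have e2 := all_nonzero dC continuous_dC dC_rec dC_base dC_ne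
  obtain ⟨ε, hε, hball⟩ := Metric.eventually_nhds_iff.1 (e1.and e2)
  have hm : 0 < min ε (1 / 16) := lt_min hε (by norm_num)
  have hm1 : min ε (1 / 16) ≤ ε := min_le_left _ _
  have hm2 : min ε (1 / 16) ≤ 1 / 16 := min_le_right _ _
  refine ⟨x0 - min ε (1 / 16) / 2, x0 + min ε (1 / 16) / 2, ?_, ?_, ?_, ?_⟩
  · unfold x0; linarith
  · linarith
  · unfold x0; linarith
  · intro x hx m hm'
    have : dist x x0 < ε := by
      rw [Real.dist_eq, abs_lt]
      constructor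
      · linarith [hx.1]
      · linarith [hx.2]
    exact ⟨(hball this).1 m hm', (hball this).2 m hm'⟩

end DomPC
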